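import Mathlib

set_option autoImplicit false

namespace Pool.Agent.H24.Sul

section core

open Classical

variable {n : ℕ} (adj : Fin n → Fin n → Prop)

noncomputable def InS (v : Fin n) : Finset (Fin n) := Finset.univ.filter (fun u => adj u v)
noncomputable def SS (v : Fin n) : Finset (Fin n) :=
  Finset.univ.filter (fun w => w ≠ v ∧ ¬ adj v w ∧ ∃ u : Fin n, adj v u ∧ adj u w)
noncomputable def MS (v : Fin n) : Finset (Fin n) :=
  Finset.univ.filter (fun w => w ≠ v ∧ ¬ adj v w ∧ ¬ adj w v)
noncomputable def WS (v : Fin n) : Finset (Fin n) :=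
  Finset.univ.filter (fun w => w ≠ v ∧ ¬ adj v w)
noncomputable def US (v : Fin n) : Finset (Fin n) :=
  Finset.univ.filter (fun w => w ≠ v ∧ ¬ adj v w ∧ ∀ u : Fin n, adj v u → ¬ adj u w)

lemma inDeg_eq (v : Fin n) : {u : Fin n | adj u v}.ncard = (InS adj v).card := by
  unfold InS
  rw [← Set.ncard_coe_finset]
  congr 1
  ext x
  simp

lemma secondOut_eq (v : Fin n) :
    {w : Fin n | w ≠ v ∧ ¬ adj v w ∧ ∃ u : Fin n, adj v u ∧ adj u w}.ncard = (SS adj v).card := by
  unfold SS
  rw [← Set.ncard_coe_finset]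
  congr 1
  ext x
  simp

lemma nonNbr_eq (v : Fin n) :
    {w : Fin n | w ≠ v ∧ ¬ adj v w ∧ ¬ adj w v}.ncard = (MS adj v).card := by
  unfold MS
  rw [← Set.ncard_coe_finset]
  congr 1
  ext x
  simp

lemma WS_card1 (v : Fin n) : (WS adj v).card = (SS adj v).card + (US adj v).card := by
  rw [← Finset.card_union_of_disjoint]
  · congr 1
    ext x
    simp only [WS, SS, US, Finset.mem_filter, Finset.mem_univ, true_and, Finset.mem_union]
    constructor
    · rintro ⟨h1, h2⟩
      by_cases h : ∃ u : Fin n, adj v u ∧ adj u x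
      · left; exact ⟨h1, h2, h⟩
      · right
        refine ⟨h1, h2, ?_⟩
        intro u hu hux
        exact h ⟨u, hu, hux⟩
    · rintro (⟨h1, h2, _⟩ | ⟨h1, h2, _⟩) <;> exact ⟨h1, h2⟩
  · rw [Finset.disjoint_left]
    intro x hx hy
    simp only [SS, US, Finset.mem_filter, Finset.mem_univ, true_and] at hx hy
    obtain ⟨_, _, u, hu, hux⟩ := hx
    exact hy.2.2 u hu hux

variable (hasym : ∀ x y : Fin n, adj x y → ¬ adj y x)
include hasym

lemma irr (x : Fin n) : ¬ adj x x := fun h => hasym x x h h

lemma WS_card2 (v : Fin n) : (WS adj v).card = (InS adj v).card + (MS adj v).card := by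
  rw [← Finset.card_union_of_disjoint]
  · congr 1
    ext x
    simp only [WS, InS, MS, Finset.mem_filter, Finset.mem_univ, true_and, Finset.mem_union]
    constructor
    · rintro ⟨h1, h2⟩
      by_cases h : adj x v
      · left; exact h
      · right; exact ⟨h1, h2, h⟩
    · rintro (h | ⟨h1, h2, _⟩)
      · refine ⟨?_, hasym x v h⟩
        rintro rfl
        exact irr adj hasym x h
      · exact ⟨h1, h2⟩
  · rw [Finset.disjoint_left]
    intro x hx hy
    simp only [InS, MS, Finset.mem_filter, Finset.mem_univ, true_and] at hx hy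
    exact hy.2.2 hx

/-- the vertices of `W(v)` other than `x` that do not dominate `x`. -/
noncomputable def NN (adj : Fin n → Fin n → Prop) (v x : Fin n) : Finset (Fin n) :=
  ((WS adj v).erase x).filter (fun y => ¬ adj y x)

lemma NN_card (v x : Fin n) (hx : x ∈ US adj v) :
    (NN adj v x).card + (InS adj x).card + 1 = (InS adj v).card + (MS adj v).card := by
  rw [← WS_card2 adj hasym v]
  have hxW : x ∈ WS adj v := by
    simp only [US, WS, Finset.mem_filter, Finset.mem_univ, true_and] at hx ⊢
    exact ⟨hx.1, hx.2.1⟩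
  have h1 : ((WS adj v).erase x).card + 1 = (WS adj v).card := Finset.card_erase_add_one hxW
  have h2 : ((WS adj v).erase x).filter (fun y => adj y x) = InS adj x := by
    ext y
    simp only [WS, InS, US, Finset.mem_filter, Finset.mem_univ, true_and, Finset.mem_erase] at hx ⊢
    constructor
    · rintro ⟨_, h⟩; exact h
    · intro h
      refine ⟨⟨?_, ?_, ?_⟩, h⟩
      · rintro rfl
        exact irr adj hasym y h
      · rintro rfl
        exact hx.2.1 h
      · intro hvy
        exact hx.2.2 y hvy h
  have h3 := Finset.card_filter_add_card_filter_not (s := (WS adj v).erase x) (fun y => adj y x)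
  rw [h2] at h3
  unfold NN
  omega

/-- counting lemma. -/
lemma count (U : Finset (Fin n)) (k : ℕ)
    (h : ∀ x ∈ U, ((U.erase x).filter (fun y => ¬ adj y x)).card ≤ k) : U.card ≤ 2 * k + 1 := by
  rcases Nat.eq_zero_or_pos U.card with h0 | h0
  · omega
  have hcard : ∀ x ∈ U, ((U.erase x).filter (fun y => ¬ adj y x)).card
      = ∑ y ∈ U, (if (y ≠ x ∧ ¬ adj y x) then 1 else 0) := by
    intro x _
    rw [← Finset.card_filter]
    congr 1
    ext y
    simp only [Finset.mem_filter, Finset.mem_erase]
    tauto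
  have hsum : ∑ x ∈ U, ∑ y ∈ U, (if (y ≠ x ∧ ¬ adj y x) then 1 else 0) ≤ U.card * k := by
    rw [← Finset.sum_congr rfl hcard, ← smul_eq_mul]
    exact Finset.sum_le_card_nsmul _ _ _ h
  have hsw : ∑ x ∈ U, ∑ y ∈ U, (if (x ≠ y ∧ ¬ adj x y) then 1 else 0)
      = ∑ x ∈ U, ∑ y ∈ U, (if (y ≠ x ∧ ¬ adj y x) then 1 else 0) := Finset.sum_comm
  have hlow : ∑ x ∈ U, ∑ y ∈ U, (if y ≠ x then 1 else 0)
      ≤ ∑ x ∈ U, ∑ y ∈ U, ((if (y ≠ x ∧ ¬ adj y x) then 1 else 0)
        + (if (x ≠ y ∧ ¬ adj x y) then 1 else 0)) := by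
    refine Finset.sum_le_sum fun x _ => Finset.sum_le_sum fun y _ => ?_
    by_cases hxy : y = x
    · subst hxy; simp
    · by_cases h1 : adj y x
      · have h2 := hasym y x h1
        simp [hxy, h1, h2, Ne.symm hxy]
      · simp [hxy, h1]
  simp only [Finset.sum_add_distrib] at hlow
  rw [hsw] at hlow
  have hl : ∑ x ∈ U, ∑ y ∈ U, (if y ≠ x then 1 else 0) = U.card * (U.card - 1) := by
    rw [← smul_eq_mul, ← Finset.sum_const]
    refine Finset.sum_congr rfl fun x hx => ?_
    rw [← Finset.card_filter, ← Finset.card_erase_of_mem hx]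
    congr 1
    ext y
    simp only [Finset.mem_filter, Finset.mem_erase]
    tauto
  rw [hl] at hlow
  have hfin : U.card * (U.card - 1) ≤ U.card * (2 * k) := by nlinarith
  have := Nat.le_of_mul_le_mul_left hfin h0
  omega

lemma NNU_card (v x : Fin n) :
    (((US adj v).erase x).filter (fun y => ¬ adj y x)).card ≤ (NN adj v x).card := by
  refine Finset.card_le_card ?_
  intro y hy
  simp only [NN, US, WS, Finset.mem_filter, Finset.mem_univ, true_and, Finset.mem_erase] at hy ⊢
  exact ⟨⟨hy.1.1, hy.1.2.1, hy.1.2.2.1⟩, hy.2⟩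

/-- part (i). -/
lemma part1 (v : Fin n) (hv : ∀ u, (InS adj v).card ≤ (InS adj u).card) :
    (US adj v).card ≤ (MS adj v).card + ((MS adj v).card - 1) := by
  rcases Finset.eq_empty_or_nonempty (US adj v) with h0 | ⟨x0, hx0⟩
  · rw [h0]; simp
  have hm : 1 ≤ (MS adj v).card := by
    have := NN_card adj hasym v x0 hx0
    have := hv x0
    omega
  have := count adj hasym (US adj v) ((MS adj v).card - 1) (by
    intro x hx
    have h1 := NN_card adj hasym v x hx
    have h2 := hv x
    have h3 := NNU_card adj hasym v x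
    omega)
  omega

/-- structure of a failing vertex. -/
lemma structure_ (v : Fin n) (hv : ∀ u, (InS adj v).card ≤ (InS adj u).card)
    (hm : (MS adj v).card ≤ 2) (hf : (MS adj v).card < (US adj v).card)
    (w : Fin n) (hw : w ∈ US adj v) :
    (InS adj w).card = (InS adj v).card ∧ (MS adj v).card < 3 ∧ 3 ≤ (US adj v).card ∧
    ∃ y z, y ∈ US adj v ∧ z ∈ US adj v ∧ adj w y ∧ adj y z ∧ adj z w ∧
      ∀ t ∈ WS adj v, t ≠ w → t ≠ z → adj t z := by
  have hp := part1 adj hasym v hv
  have h3 : 3 ≤ (US adj v).card := by omega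
  have hM : (MS adj v).card = 2 := by omega
  have hN : ∀ x ∈ US adj v, (NN adj v x).card ≤ 1 := by
    intro x hx
    have h1 := NN_card adj hasym v x hx
    have h2 := hv x
    omega
  have hU : ∀ x ∈ US adj v, x ∈ WS adj v := by
    intro x hx
    simp only [US, WS, Finset.mem_filter, Finset.mem_univ, true_and] at hx ⊢
    exact ⟨hx.1, hx.2.1⟩
  have hmem : ∀ x y, y ∈ WS adj v → y ≠ x → ¬ adj y x → y ∈ NN adj v x := by
    intro x y h1 h2 h3
    simp only [NN, Finset.mem_filter, Finset.mem_erase]
    exact ⟨⟨h2, h1⟩, h3⟩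
  have huniq : ∀ x ∈ US adj v, ∀ y z, y ∈ WS adj v → z ∈ WS adj v → y ≠ x → z ≠ x →
      ¬ adj y x → y ≠ z → adj z x := by
    intro x hx y z hy hz hyx hzx hn hyz
    by_contra hc
    have h1 := hN x hx
    exact hyz (Finset.card_le_one.mp h1 y (hmem x y hy hyx hn) z (hmem x z hz hzx hc))
  -- a non-in-neighbour of `w` in `U`
  have hex : ∃ y ∈ US adj v, y ≠ w ∧ ¬ adj y w := by
    by_contra hc
    push Not at hc
    have h2 : 1 < ((US adj v).erase w).card := by
      rw [Finset.card_erase_of_mem hw]; omega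
    obtain ⟨y, hy, z, hz, hyz⟩ := Finset.one_lt_card.mp h2
    rw [Finset.mem_erase] at hy hz
    have hyw := hc y hy.2 hy.1
    have hzw := hc z hz.2 hz.1
    have h1 := huniq y hy.2 w z (hU w hw) (hU z hz.2) hy.1.symm (Ne.symm hyz)
      (hasym y w hyw) hz.1.symm
    have h2 := huniq z hz.2 w y (hU w hw) (hU y hy.2) hz.1.symm hyz
      (hasym z w hzw) hy.1.symm
    exact hasym _ _ h1 h2
  obtain ⟨y, hy, hyw, hnyw⟩ := hex
  have h4 : 0 < (((US adj v).erase w).erase y).card := by
    rw [Finset.card_erase_of_mem (Finset.mem_erase.mpr ⟨hyw, hy⟩), Finset.card_erase_of_mem hw]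
    omega
  obtain ⟨z, hz⟩ := Finset.card_pos.mp h4
  rw [Finset.mem_erase, Finset.mem_erase] at hz
  obtain ⟨hzy, hzw, hzU⟩ := hz
  have hadjzw : adj z w := huniq w hw y z (hU y hy) (hU z hzU) hyw hzw hnyw hzy.symm
  have hnwz : ¬ adj w z := hasym z w hadjzw
  have hadjyz : adj y z := huniq z hzU w y (hU w hw) (hU y hy) hzw.symm hzy.symm hnwz hyw.symm
  have hnzy : ¬ adj z y := hasym y z hadjyz
  have hadjwy : adj w y := huniq y hy z w (hU z hzU) (hU w hw) hzy hyw.symm hnzy hzw
  refine ⟨?_, by omega, h3, y, z, hy, hzU, hadjwy, hadjyz, hadjzw, ?_⟩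
  · have h5 := NN_card adj hasym v w hw
    have h6 : 0 < (NN adj v w).card := Finset.card_pos.mpr ⟨y, hmem w y (hU y hy) hyw hnyw⟩
    have h7 := hv w
    omega
  · intro t ht htw htz
    exact huniq z hzU w t (hU w hw) ht hzw.symm htz hnwz htw.symm

/-- part (ii). -/
lemma part2 (v : Fin n) (hv : ∀ u, (InS adj v).card ≤ (InS adj u).card)
    (hmv : (MS adj v).card ≤ 2)
    (hm : ∀ v, (∀ u, (InS adj v).card ≤ (InS adj u).card) → (MS adj v).card ≤ 3) :
    ∃ v, (∀ u, (InS adj v).card ≤ (InS adj u).card) ∧ (US adj v).card ≤ (MS adj v).card := by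
  by_contra hc
  push Not at hc
  have hfv := hc v hv
  -- a `w ∈ U(v)` with `w → v`
  have hexw : ∃ w ∈ US adj v, adj w v := by
    by_contra hc2
    push Not at hc2
    have : US adj v ⊆ MS adj v := by
      intro x hx
      have := hc2 x hx
      simp only [US, MS, Finset.mem_filter, Finset.mem_univ, true_and] at hx ⊢
      exact ⟨hx.1, hx.2.1, this⟩
    have := Finset.card_le_card this
    omega
  obtain ⟨w, hwU, hwv⟩ := hexw
  obtain ⟨hwdeg, -, -, y, z, hyU, hzU, hwy, hyz, hzw, hdom⟩ :=
    structure_ adj hasym v hv hmv hfv w hwU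
  have hwmin : ∀ u, (InS adj w).card ≤ (InS adj u).card := by
    intro u; rw [hwdeg]; exact hv u
  have hfw := hc w hwmin
  have hmw := hm w hwmin
  have hzW : z ∈ WS adj w := by
    simp only [WS, Finset.mem_filter, Finset.mem_univ, true_and]
    refine ⟨?_, hasym z w hzw⟩
    rintro rfl
    exact irr adj hasym z hzw
  have hznU : z ∉ US adj w := by
    intro h
    simp only [US, Finset.mem_filter, Finset.mem_univ, true_and] at h
    exact h.2.2 y hwy hyz
  have key : ∀ t ∈ US adj w, z ∈ NN adj w t := by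
    intro t ht
    have ht' := ht
    simp only [US, Finset.mem_filter, Finset.mem_univ, true_and] at ht'
    have htW : t ∈ WS adj v := by
      simp only [WS, Finset.mem_filter, Finset.mem_univ, true_and]
      refine ⟨?_, ht'.2.2 v hwv⟩
      rintro rfl
      exact ht'.2.1 hwv
    have htz : t ≠ z := by rintro rfl; exact hznU ht
    have h1 := hdom t htW ht'.1 htz
    simp only [NN, Finset.mem_filter, Finset.mem_erase]
    exact ⟨⟨htz.symm, hzW⟩, hasym t z h1⟩
  have hcount := count adj hasym (US adj w) ((MS adj w).card - 2) (by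
    intro t ht
    have h1 := NN_card adj hasym w t ht
    have h2 := hwmin t
    have h3 := key t ht
    have h4 : ((US adj w).erase t).filter (fun y => ¬ adj y t) ⊆ (NN adj w t).erase z := by
      intro y hy
      rw [Finset.mem_erase]
      refine ⟨?_, ?_⟩
      · rintro rfl
        simp only [Finset.mem_filter, Finset.mem_erase] at hy
        exact hznU hy.1.2
      · simp only [NN, US, WS, Finset.mem_filter, Finset.mem_univ, true_and,
          Finset.mem_erase] at hy ⊢
        exact ⟨⟨hy.1.1, hy.1.2.1, hy.1.2.2.1⟩, hy.2⟩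
    have h5 := Finset.card_le_card h4
    rw [Finset.card_erase_of_mem h3] at h5
    have h6 : 0 < (NN adj w t).card := Finset.card_pos.mpr ⟨z, h3⟩
    omega)
  have hne : (US adj w).Nonempty := Finset.card_pos.mp (by omega)
  obtain ⟨t0, ht0⟩ := hne
  have h1 := NN_card adj hasym w t0 ht0
  have h2 := hwmin t0
  have h6 : 0 < (NN adj w t0).card := Finset.card_pos.mpr ⟨z, key t0 ht0⟩
  omega

/-- `v ≠ x` reaches every other vertex different from `x` in at most two steps avoiding `x`. -/
def King (adj : Fin n → Fin n → Prop) (x v : Fin n) : Prop :=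
  v ≠ x ∧ ∀ y, y ≠ x → y ≠ v → ¬ adj v y → ∃ u, adj v u ∧ adj u y

/-- a non-king of the tournament `D - x` is dominated by a king. -/
lemma exists_king (x : Fin n)
    (ht : ∀ u v : Fin n, u ≠ x → v ≠ x → u ≠ v → adj u v ∨ adj v u)
    (y : Fin n) (hy : y ≠ x) (hk : ¬ King adj x y) : ∃ z, King adj x z ∧ adj z y := by
  -- in-neighbours of `y` other than `x`
  set A : Finset (Fin n) := Finset.univ.filter (fun z => z ≠ x ∧ adj z y) with hA
  have hne : A.Nonempty := by
    unfold King at hk
    push Not at hk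
    obtain ⟨t, htx, hty, hyt, -⟩ := hk hy
    rcases ht t y htx hy hty with h | h
    · exact ⟨t, by simp [hA, htx, h]⟩
    · exact absurd h hyt
  obtain ⟨z, hz, hmax⟩ := Finset.exists_max_image A
    (fun z => (Finset.univ.filter (fun u => u ≠ x ∧ adj z u)).card) hne
  simp only [hA, Finset.mem_filter, Finset.mem_univ, true_and] at hz
  refine ⟨z, ⟨hz.1, ?_⟩, hz.2⟩
  intro t htx htz hzt
  by_contra hc
  push Not at hc
  have htz' : adj t z := by
    rcases ht t z htx hz.1 htz with h | h
    · exact h
    · exact absurd h hzt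
  have hdom : ∀ u, u ≠ x → adj z u → adj t u := by
    intro u hux hzu
    have htu : t ≠ u := by
      rintro rfl
      exact hzt hzu
    rcases ht t u htx hux htu with h | h
    · exact h
    · exact absurd h (hc u hzu)
  have hty : adj t y := hdom y hy hz.2
  have htA : t ∈ A := by simp [hA, htx, hty]
  have h1 := hmax t htA
  have h2 : (Finset.univ.filter (fun u => u ≠ x ∧ adj z u)).card
      < (Finset.univ.filter (fun u => u ≠ x ∧ adj t u)).card := by
    refine Finset.card_lt_card ?_
    rw [Finset.ssubset_iff_of_subset]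
    · refine ⟨z, by simp [hz.1, htz'], ?_⟩
      simp only [Finset.mem_filter, Finset.mem_univ, true_and, not_and]
      intro _
      exact irr adj hasym z
    · intro u hu
      simp only [Finset.mem_filter, Finset.mem_univ, true_and] at hu ⊢
      exact ⟨hu.1, hdom u hu.1 hu.2⟩
  omega

/-- part (iii). -/
lemma part3 (x : Fin n)
    (ht : ∀ u v : Fin n, u ≠ x → v ≠ x → u ≠ v → adj u v ∨ adj v u) :
    ∃ v, (InS adj v).card ≤ (SS adj v).card := by
  by_contra hc
  push Not at hc
  -- kings are dominated by `x` and do not reach `x` in two steps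
  have hking : ∀ v, King adj x v → adj x v ∧ ∀ u, adj v u → ¬ adj u x := by
    intro v hv
    have hlt := hc v
    have hsub : ∀ t, t ∈ InS adj v → t ≠ x → t ∈ SS adj v := by
      intro t htv htx
      simp only [InS, SS, Finset.mem_filter, Finset.mem_univ, true_and] at htv ⊢
      have h1 : t ≠ v := by rintro rfl; exact irr adj hasym t htv
      have h2 : ¬ adj v t := hasym t v htv
      exact ⟨h1, h2, hv.2 t htx h1 h2⟩
    have hxv : adj x v := by
      by_contra hn
      have : InS adj v ⊆ SS adj v := by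
        intro t htv
        refine hsub t htv ?_
        rintro rfl
        simp only [InS, Finset.mem_filter, Finset.mem_univ, true_and] at htv
        exact hn htv
      have := Finset.card_le_card this
      omega
    refine ⟨hxv, ?_⟩
    intro u hvu hux
    have : InS adj v ⊆ SS adj v := by
      intro t htv
      by_cases htx : t = x
      · subst htx
        simp only [SS, Finset.mem_filter, Finset.mem_univ, true_and]
        exact ⟨hv.1.symm, hasym _ _ hxv, u, hvu, hux⟩
      · exact hsub t htv htx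
    have := Finset.card_le_card this
    omega
  have hx := hc x
  have hpos : 0 < (InS adj x).card := by omega
  obtain ⟨y, hy⟩ := Finset.card_pos.mp hpos
  simp only [InS, Finset.mem_filter, Finset.mem_univ, true_and] at hy
  have hyx : y ≠ x := by rintro rfl; exact irr adj hasym y hy
  have hyk : ¬ King adj x y := fun h => hasym y x hy (hking y h).1
  obtain ⟨z, hz, hzy⟩ := exists_king adj hasym x ht y hyx hyk
  exact (hking z hz).2 y hzy hy

end core


end Pool.Agent.H24.Sul
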