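import Pool.Agent.H24.Sul.Core

set_option autoImplicit false

namespace Pool.Agent.H24.Sul

section tri

open Classical Finset

variable {n : ℕ}

noncomputable def aa (r : Fin n → Fin n → Prop) (x y : Fin n) : ℤ := if r x y then 1 else 0

lemma aa_nonneg (r : Fin n → Fin n → Prop) (x y : Fin n) : 0 ≤ aa r x y := by
  unfold aa; split_ifs <;> norm_num

lemma ident (r : Fin n → Fin n → Prop) :
    ∑ v, ∑ u, aa r v u * ((∑ x, aa r x v) - 1 - ∑ w, aa r u w * (1 - aa r v w))
      = (∑ v, ∑ u, ∑ w, aa r v u * aa r v w * aa r u w) - ∑ v, ∑ u, aa r v u := by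
  have h1 : ∀ v u, aa r v u * ((∑ x, aa r x v) - 1 - ∑ w, aa r u w * (1 - aa r v w))
      = (∑ x, aa r x v * aa r v u) - aa r v u - (∑ w, aa r v u * aa r u w)
        + ∑ w, aa r v u * aa r v w * aa r u w := by
    intro v u
    have e1 : ∑ x, aa r x v * aa r v u = aa r v u * ∑ x, aa r x v := by
      rw [Finset.mul_sum]; exact Finset.sum_congr rfl fun x _ => mul_comm _ _
    have e2 : ∑ w, aa r v u * aa r u w = aa r v u * ∑ w, aa r u w := by
      rw [Finset.mul_sum]
    have e3 : ∑ w, aa r v u * aa r v w * aa r u w = aa r v u * ∑ w, aa r u w * aa r v w := by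
      rw [Finset.mul_sum]; exact Finset.sum_congr rfl fun x _ => by ring
    have e4 : ∑ w, aa r u w * (1 - aa r v w) = (∑ w, aa r u w) - ∑ w, aa r u w * aa r v w := by
      rw [← Finset.sum_sub_distrib]; exact Finset.sum_congr rfl fun x _ => by ring
    rw [e1, e2, e3, e4]; ring
  simp only [h1, Finset.sum_add_distrib, Finset.sum_sub_distrib]
  have h2 : ∑ v, ∑ u, ∑ x, aa r x v * aa r v u = ∑ v, ∑ u, ∑ w, aa r v u * aa r u w := by
    calc ∑ v, ∑ u, ∑ x, aa r x v * aa r v u = ∑ v, ∑ x, ∑ u, aa r x v * aa r v u :=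
          Finset.sum_congr rfl fun v _ => Finset.sum_comm
      _ = ∑ x, ∑ v, ∑ u, aa r x v * aa r v u := Finset.sum_comm
  rw [h2]; ring

lemma sum_aa (r : Fin n → Fin n → Prop) (v : Fin n) :
    ∑ x, aa r x v = ((InS r v).card : ℤ) := by
  unfold aa InS
  rw [Finset.card_filter]
  push_cast
  rfl

lemma sum_diff (r : Fin n → Fin n → Prop) (v u : Fin n) :
    ∑ w, aa r u w * (1 - aa r v w)
      = ((Finset.univ.filter (fun w => r u w ∧ ¬ r v w)).card : ℤ) := by
  rw [Finset.card_filter]
  push_cast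
  refine Finset.sum_congr rfl fun w _ => ?_
  unfold aa
  by_cases h1 : r u w <;> by_cases h2 : r v w <;> simp [h1, h2]

/-- the core inequality. -/
lemma core_ineq (r : Fin n → Fin n → Prop)
    (h : ∀ v u, r v u →
      (Finset.univ.filter (fun w => r u w ∧ ¬ r v w)).card + 1 ≤ (InS r v).card) :
    (∑ v, ∑ u, aa r v u) ≤ (∑ v, ∑ u, ∑ w, aa r v u * aa r v w * aa r u w) ∧
    ((∑ v, ∑ u, ∑ w, aa r v u * aa r v w * aa r u w) ≤ (∑ v, ∑ u, aa r v u) →
      ∀ v u, r v u →
        (Finset.univ.filter (fun w => r u w ∧ ¬ r v w)).card + 1 = (InS r v).card) := by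
  have hid := ident r
  have hterm : ∀ v u, 0 ≤ aa r v u *
      ((∑ x, aa r x v) - 1 - ∑ w, aa r u w * (1 - aa r v w)) := by
    intro v u
    by_cases hr : r v u
    · have := h v u hr
      rw [sum_aa, sum_diff]
      have h1 : aa r v u = 1 := by unfold aa; simp [hr]
      rw [h1]
      have : ((Finset.univ.filter (fun w => r u w ∧ ¬ r v w)).card : ℤ) + 1
          ≤ ((InS r v).card : ℤ) := by exact_mod_cast this
      linarith
    · have h1 : aa r v u = 0 := by unfold aa; simp [hr]
      rw [h1]; simp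
  have hrow : ∀ v, 0 ≤ ∑ u, aa r v u *
      ((∑ x, aa r x v) - 1 - ∑ w, aa r u w * (1 - aa r v w)) :=
    fun v => Finset.sum_nonneg fun u _ => hterm v u
  have htot := Finset.sum_nonneg (s := Finset.univ) fun v _ => hrow v
  refine ⟨by linarith, ?_⟩
  intro hle v u hr
  have hz : ∑ v, ∑ u, aa r v u *
      ((∑ x, aa r x v) - 1 - ∑ w, aa r u w * (1 - aa r v w)) = 0 := by
    apply le_antisymm _ htot
    rw [hid]; linarith
  have h1 := (Finset.sum_eq_zero_iff_of_nonneg fun v _ => hrow v).mp hz v (Finset.mem_univ v)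
  have h2 := (Finset.sum_eq_zero_iff_of_nonneg fun u _ => hterm v u).mp h1 u (Finset.mem_univ u)
  have h3 : aa r v u = 1 := by unfold aa; simp [hr]
  rw [h3, one_mul, sum_aa, sum_diff] at h2
  have : ((Finset.univ.filter (fun w => r u w ∧ ¬ r v w)).card : ℤ) + 1
      = ((InS r v).card : ℤ) := by linarith
  exact_mod_cast this

/-- main lemma. -/
lemma tri_main (adj : Fin n → Fin n → Prop) (hn : 0 < n)
    (hasym : ∀ x y : Fin n, adj x y → ¬ adj y x)
    (hT : (∑ v, ∑ u, ∑ w, aa adj v u * aa adj v w * aa adj u w) ≤ (∑ v, ∑ u, aa adj v u)) :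
    ∃ v, (InS adj v).card ≤ (SS adj v).card := by
  have : Nonempty (Fin n) := ⟨⟨0, hn⟩⟩
  by_contra hc
  push Not at hc
  have hsub : ∀ v u, adj v u →
      Finset.univ.filter (fun w => adj u w ∧ ¬ adj v w) ⊆ SS adj v := by
    intro v u hvu w hw
    simp only [SS, Finset.mem_filter, Finset.mem_univ, true_and] at hw ⊢
    refine ⟨?_, hw.2, u, hvu, hw.1⟩
    rintro rfl
    exact hasym _ _ hvu hw.1
  have hle : ∀ v u, adj v u →
      (Finset.univ.filter (fun w => adj u w ∧ ¬ adj v w)).card + 1 ≤ (InS adj v).card := by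
    intro v u hvu
    have h1 := Finset.card_le_card (hsub v u hvu)
    have h2 := hc v
    omega
  have heq := (core_ineq adj hle).2 hT
  have hE : ∀ v u, adj v u → ∀ w, (w ∈ SS adj v ↔ adj u w ∧ ¬ adj v w) := by
    intro v u hvu w
    have h1 := heq v u hvu
    have h2 := hc v
    have h3 : Finset.univ.filter (fun w => adj u w ∧ ¬ adj v w) = SS adj v :=
      Finset.eq_of_subset_of_card_le (hsub v u hvu) (by omega)
    rw [← h3]
    simp
  -- initial strong component
  set anc : Fin n → Finset (Fin n) :=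
    fun v => Finset.univ.filter (fun x => Relation.ReflTransGen adj x v) with hanc
  have hmem : ∀ x v, x ∈ anc v ↔ Relation.ReflTransGen adj x v := by
    intro x v; simp [hanc]
  obtain ⟨v0, hv0⟩ := Finite.exists_min (fun v => (anc v).card)
  have hreach : ∀ x ∈ anc v0, Relation.ReflTransGen adj v0 x := by
    intro x hx
    have h1 : anc x ⊆ anc v0 := by
      intro y hy
      rw [hmem] at hx hy ⊢
      exact hy.trans hx
    have h2 : anc x = anc v0 := Finset.eq_of_subset_of_card_le h1 (hv0 x)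
    have h3 : v0 ∈ anc x := by
      rw [h2, hmem]
    rwa [hmem] at h3
  have hclosed : ∀ x ∈ anc v0, ∀ y, adj y x → y ∈ anc v0 := by
    intro x hx y hy
    rw [hmem] at hx ⊢
    exact Relation.ReflTransGen.head hy hx
  have hpos : ∀ v, ∃ w, adj w v := by
    intro v
    have h1 := hc v
    obtain ⟨w, hw⟩ := Finset.card_pos.mp (show 0 < (InS adj v).card by omega)
    simp only [InS, Finset.mem_filter, Finset.mem_univ, true_and] at hw
    exact ⟨w, hw⟩
  have hnoarc : ∀ v ∈ anc v0, ∀ u1 u2, adj v u1 → adj v u2 → ¬ adj u1 u2 := by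
    intro v hv u1 u2 h1 h2 h12
    -- `S` is closed under out-neighbours
    have hS : ∀ z ∈ SS adj v, ∀ y, adj z y → y ∈ SS adj v := by
      intro z hz y hzy
      have hall : ∀ u, adj v u → adj u z := fun u hu => ((hE v u hu z).mp hz).1
      have hynv : ¬ adj v y := fun h => hasym _ _ hzy (hall y h)
      have hu1y : adj u1 y := by
        by_contra hn1
        have hy1 : y ∈ SS adj u1 := by
          simp only [SS, Finset.mem_filter, Finset.mem_univ, true_and]
          refine ⟨?_, hn1, z, hall u1 h1, hzy⟩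
          rintro rfl
          exact hasym _ _ hzy (hall y h1)
        have hu2y := ((hE u1 u2 h12 y).mp hy1).1
        have hyS : y ∈ SS adj v := (hE v u2 h2 y).mpr ⟨hu2y, hynv⟩
        exact hn1 ((hE v u1 h1 y).mp hyS).1
      exact (hE v u1 h1 y).mpr ⟨hu1y, hynv⟩
    obtain ⟨w0, hw0⟩ := hpos v
    have hw0C := hclosed v hv w0 hw0
    have hr : Relation.ReflTransGen adj v w0 := ((hmem v v0).mp hv).trans (hreach w0 hw0C)
    have hPall : ∀ y, Relation.ReflTransGen adj v y → (y = v ∨ adj v y ∨ y ∈ SS adj v) := by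
      intro y hy
      induction hy with
      | refl => left; rfl
      | @tail b c _ hbc ih =>
        by_cases hcv : c = v
        · left; exact hcv
        by_cases hvc : adj v c
        · right; left; exact hvc
        right; right
        rcases ih with h | h | h
        · rw [h] at hbc; exact absurd hbc hvc
        · simp only [SS, Finset.mem_filter, Finset.mem_univ, true_and]
          exact ⟨hcv, hvc, b, h, hbc⟩
        · exact hS b h c hbc
    have hP := hPall w0 hr
    rcases hP with h | h | h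
    · rw [h] at hw0
      exact hasym _ _ hw0 hw0
    · exact hasym _ _ h hw0
    · have := hS w0 h v hw0
      simp only [SS, Finset.mem_filter, Finset.mem_univ, true_and] at this
      exact this.1 rfl
  -- restrict to the component
  set r : Fin n → Fin n → Prop := fun x y => adj x y ∧ x ∈ anc v0 ∧ y ∈ anc v0 with hr
  have hr' : ∀ v u, r v u →
      (Finset.univ.filter (fun w => r u w ∧ ¬ r v w)).card + 1 ≤ (InS r v).card := by
    intro v u hvu
    have h1 := hle v u hvu.1
    have h2 : InS r v = InS adj v := by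
      ext x
      simp only [InS, Finset.mem_filter, Finset.mem_univ, true_and, hr]
      exact ⟨fun h => h.1, fun h => ⟨h, hclosed v hvu.2.1 x h, hvu.2.1⟩⟩
    have h3 : Finset.univ.filter (fun w => r u w ∧ ¬ r v w)
        ⊆ Finset.univ.filter (fun w => adj u w ∧ ¬ adj v w) := by
      intro w hw
      simp only [Finset.mem_filter, Finset.mem_univ, true_and] at hw ⊢
      exact ⟨hw.1.1, fun h => hw.2 ⟨h, hvu.2.1, hw.1.2.2⟩⟩
    have h4 := Finset.card_le_card h3
    rw [h2]
    omega
  have hfin := (core_ineq r (fun v u h => by convert hr' v u h)).1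
  have hT0 : ∑ v, ∑ u, ∑ w, aa r v u * aa r v w * aa r u w = 0 := by
    refine Finset.sum_eq_zero fun v _ => Finset.sum_eq_zero fun u _ =>
      Finset.sum_eq_zero fun w _ => ?_
    unfold aa
    by_cases h1 : r v u
    · by_cases h2 : r v w
      · have h3 : ¬ r u w := fun h => hnoarc v h1.2.1 u w h1.1 h2.1 h.1
        simp [h3]
      · simp [h2]
    · simp [h1]
  rw [hT0] at hfin
  obtain ⟨w0, hw0⟩ := hpos v0
  have hv0m : v0 ∈ anc v0 := (hmem v0 v0).mpr Relation.ReflTransGen.refl
  have hrw : r w0 v0 := ⟨hw0, hclosed v0 hv0m w0 hw0, hv0m⟩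
  have h1 : aa r w0 v0 ≤ ∑ v, ∑ u, aa r v u := by
    calc aa r w0 v0 ≤ ∑ u, aa r w0 u :=
          Finset.single_le_sum (fun u _ => aa_nonneg r w0 u) (Finset.mem_univ v0)
      _ ≤ ∑ v, ∑ u, aa r v u :=
          Finset.single_le_sum (f := fun v => ∑ u, aa r v u)
            (fun v _ => Finset.sum_nonneg fun u _ => aa_nonneg r v u) (Finset.mem_univ w0)
  have h2 : aa r w0 v0 = 1 := by unfold aa; simp [hrw]
  linarith

/-- arcs inside a set of at most three vertices. -/
lemma small_set (adj : Fin n → Fin n → Prop) (hasym : ∀ x y : Fin n, adj x y → ¬ adj y x)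
    (X : Finset (Fin n)) (hX : X.card ≤ 3) :
    ∑ v ∈ X, ∑ u ∈ X, aa adj v u ≤ (X.card : ℤ) := by
  have h1 : ∑ v ∈ X, ∑ u ∈ X, aa adj u v = ∑ v ∈ X, ∑ u ∈ X, aa adj v u := Finset.sum_comm
  have h2 : ∑ v ∈ X, ∑ u ∈ X, (aa adj v u + aa adj u v)
      ≤ ∑ v ∈ X, ∑ u ∈ X, (if u ≠ v then (1 : ℤ) else 0) := by
    refine Finset.sum_le_sum fun v _ => Finset.sum_le_sum fun u _ => ?_
    unfold aa
    by_cases huv : u = v
    · subst huv
      have : ¬ adj u u := fun h => hasym u u h h
      simp [this]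
    · by_cases ha : adj v u
      · have hb := hasym v u ha
        simp [huv, ha, hb]
      · by_cases hb : adj u v <;> simp [huv, ha, hb]
  simp only [Finset.sum_add_distrib] at h2
  rw [h1] at h2
  have h3 : ∑ v ∈ X, ∑ u ∈ X, (if u ≠ v then (1 : ℤ) else 0) = X.card * ((X.card : ℤ) - 1) := by
    have : ∀ v ∈ X, ∑ u ∈ X, (if u ≠ v then (1 : ℤ) else 0) = (X.card : ℤ) - 1 := by
      intro v hv
      have h4 : ∑ u ∈ X, (if u ≠ v then (1 : ℤ) else 0) = (((X.erase v).card : ℕ) : ℤ) := by
        rw [← Finset.filter_ne' X v, Finset.card_filter]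
        push_cast
        rfl
      rw [h4, Finset.card_erase_of_mem hv]
      have : 1 ≤ X.card := Finset.card_pos.mpr ⟨v, hv⟩
      push_cast [Nat.cast_sub this]
      ring
    rw [Finset.sum_congr rfl this, Finset.sum_const]
    simp
  rw [h3] at h2
  have h5 : (X.card : ℤ) ≤ 3 := by exact_mod_cast hX
  have h6 : (0 : ℤ) ≤ X.card := by positivity
  nlinarith

noncomputable def OutS (adj : Fin n → Fin n → Prop) (v : Fin n) : Finset (Fin n) :=
  Finset.univ.filter (fun u => adj v u)

lemma tri_in (adj : Fin n → Fin n → Prop) (hasym : ∀ x y : Fin n, adj x y → ¬ adj y x)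
    (h : ∀ v, (InS adj v).card ≤ 3) :
    (∑ v, ∑ u, ∑ w, aa adj v u * aa adj v w * aa adj u w) ≤ (∑ v, ∑ u, aa adj v u) := by
  have h1 : ∑ v, ∑ u, ∑ w, aa adj v u * aa adj v w * aa adj u w
      = ∑ w, ∑ v, ∑ u, aa adj v u * aa adj v w * aa adj u w := by
    calc ∑ v, ∑ u, ∑ w, aa adj v u * aa adj v w * aa adj u w
        = ∑ v, ∑ w, ∑ u, aa adj v u * aa adj v w * aa adj u w :=
          Finset.sum_congr rfl fun v _ => Finset.sum_comm
      _ = ∑ w, ∑ v, ∑ u, aa adj v u * aa adj v w * aa adj u w := Finset.sum_comm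
  have h2 : ∑ v, ∑ u, aa adj v u = ∑ w, ∑ x, aa adj x w := Finset.sum_comm
  rw [h1, h2]
  refine Finset.sum_le_sum fun w _ => ?_
  rw [sum_aa]
  have h3 : ∑ v, ∑ u, aa adj v u * aa adj v w * aa adj u w
      = ∑ v ∈ InS adj w, ∑ u ∈ InS adj w, aa adj v u := by
    unfold InS
    rw [Finset.sum_filter]
    refine Finset.sum_congr rfl fun v _ => ?_
    by_cases hv : adj v w
    · rw [if_pos hv, Finset.sum_filter]
      refine Finset.sum_congr rfl fun u _ => ?_
      by_cases hu : adj u w
      · simp [aa, hv, hu]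
      · simp [aa, hv, hu]
    · rw [if_neg hv]
      refine Finset.sum_eq_zero fun u _ => ?_
      simp [aa, hv]
  rw [h3]
  exact small_set adj hasym _ (h w)

lemma tri_out (adj : Fin n → Fin n → Prop) (hasym : ∀ x y : Fin n, adj x y → ¬ adj y x)
    (h : ∀ v, (OutS adj v).card ≤ 3) :
    (∑ v, ∑ u, ∑ w, aa adj v u * aa adj v w * aa adj u w) ≤ (∑ v, ∑ u, aa adj v u) := by
  refine Finset.sum_le_sum fun v _ => ?_
  have h0 : ∑ u, aa adj v u = ((OutS adj v).card : ℤ) := by
    unfold aa OutS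
    rw [Finset.card_filter]
    push_cast
    rfl
  rw [h0]
  have h3 : ∑ u, ∑ w, aa adj v u * aa adj v w * aa adj u w
      = ∑ u ∈ OutS adj v, ∑ w ∈ OutS adj v, aa adj u w := by
    unfold OutS
    rw [Finset.sum_filter]
    refine Finset.sum_congr rfl fun u _ => ?_
    by_cases hv : adj v u
    · rw [if_pos hv, Finset.sum_filter]
      refine Finset.sum_congr rfl fun w _ => ?_
      by_cases hu : adj v w
      · simp [aa, hv, hu]
      · simp [aa, hv, hu]
    · rw [if_neg hv]
      refine Finset.sum_eq_zero fun u _ => ?_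
      simp [aa, hv]
  rw [h3]
  exact small_set adj hasym _ (h v)

lemma arcs_eq (adj : Fin n → Fin n → Prop) :
    (({p : Fin n × Fin n | adj p.1 p.2}.ncard : ℕ) : ℤ) = ∑ v, ∑ u, aa adj v u := by
  have : {p : Fin n × Fin n | adj p.1 p.2}
      = ((Finset.univ.filter (fun p : Fin n × Fin n => adj p.1 p.2) : Finset _) : Set _) := by
    ext; simp
  rw [this, Set.ncard_coe_finset, Finset.card_filter, Fintype.sum_prod_type]
  push_cast
  rfl

lemma tris_eq (adj : Fin n → Fin n → Prop) :
    (({p : Fin n × Fin n × Fin n | adj p.1 p.2.1 ∧ adj p.1 p.2.2 ∧ adj p.2.1 p.2.2}.ncard : ℕ) : ℤ)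
      = ∑ v, ∑ u, ∑ w, aa adj v u * aa adj v w * aa adj u w := by
  have : {p : Fin n × Fin n × Fin n | adj p.1 p.2.1 ∧ adj p.1 p.2.2 ∧ adj p.2.1 p.2.2}
      = ((Finset.univ.filter (fun p : Fin n × Fin n × Fin n =>
          adj p.1 p.2.1 ∧ adj p.1 p.2.2 ∧ adj p.2.1 p.2.2) : Finset _) : Set _) := by
    ext; simp
  rw [this, Set.ncard_coe_finset, Finset.card_filter, Fintype.sum_prod_type]
  push_cast
  refine Finset.sum_congr rfl fun v _ => ?_
  rw [Fintype.sum_prod_type]
  refine Finset.sum_congr rfl fun u _ => Finset.sum_congr rfl fun w _ => ?_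
  unfold aa
  by_cases h1 : adj v u <;> by_cases h2 : adj v w <;> by_cases h3 : adj u w <;> simp [h1, h2, h3]

lemma outDeg_eq (adj : Fin n → Fin n → Prop) (v : Fin n) :
    {u : Fin n | adj v u}.ncard = (OutS adj v).card := by
  unfold OutS
  rw [← Set.ncard_coe_finset]
  congr 1
  ext x
  simp

end tri

end Pool.Agent.H24.Sul
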